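import Pool.Agent.Helper60.LZ.St

/-!
# Project LZ, module SPL: Mertens for the primes in `(x / 2, w]`
-/

set_option autoImplicit false

namespace Pool.Agent.Helper75.LZ

open Finset
open Pool.Agent.Helper60.LZ
open Pool.Agent.Helper15.AB (StMT)

private theorem pw_sum (x w : ℕ) (hx : 14 ≤ x) (hw : x ≤ w) :
    ∑ l ∈ pw x w, (1 : ℝ) / l =
      ∑ l ∈ (Icc 1 w).filter Nat.Prime, (1 : ℝ) / l -
        ∑ l ∈ (Icc 1 (x / 2)).filter Nat.Prime, (1 : ℝ) / l := by
  have e : (Icc 1 w).filter Nat.Prime = pw x w ∪ (Icc 1 (x / 2)).filter Nat.Prime := by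
    ext l
    simp only [pw, mem_union, mem_filter, mem_Icc]
    constructor
    · rintro ⟨⟨h1, h2⟩, h3⟩
      by_cases h : x < 2 * l
      · left
        exact ⟨⟨by omega, h2⟩, h3, h⟩
      · right
        exact ⟨⟨h1, by omega⟩, h3⟩
    · rintro (⟨⟨h1, h2⟩, h3, h4⟩ | ⟨⟨h1, h2⟩, h3⟩)
      · exact ⟨⟨by omega, h2⟩, h3⟩
      · exact ⟨⟨h1, by omega⟩, h3⟩
  have d : Disjoint (pw x w) ((Icc 1 (x / 2)).filter Nat.Prime) := by
    rw [Finset.disjoint_left]
    intro l h1 h2
    simp only [pw, mem_filter, mem_Icc] at h1 h2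
    omega
  rw [e, sum_union d]
  ring

/-- SPL. -/
theorem hSPL (hM : StMT) : StSPL := by
  obtain ⟨C, hC, h⟩ := hM
  refine ⟨2 * C + 1, by positivity, ?_⟩
  intro x w hx hw
  rw [pw_sum x w hx hw]
  have hxR : (14 : ℝ) ≤ x := by exact_mod_cast hx
  have hwR : (14 : ℝ) ≤ w := hxR.trans (by exact_mod_cast hw)
  have h1 := h w (by linarith)
  rw [Nat.floor_natCast] at h1
  have hz : 7 ≤ x / 2 := by omega
  have hzR : (7 : ℝ) ≤ ((x / 2 : ℕ) : ℝ) := by exact_mod_cast hz
  have h2 := h ((x / 2 : ℕ) : ℝ) (by linarith)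
  rw [Nat.floor_natCast] at h2
  have h3 : (x : ℝ) ≤ 3 * ((x / 2 : ℕ) : ℝ) := by
    have : x ≤ 3 * (x / 2) := by omega
    exact_mod_cast this
  have h4 : ((x / 2 : ℕ) : ℝ) ≤ x := by
    have : x / 2 ≤ x := by omega
    exact_mod_cast this
  generalize ((x / 2 : ℕ) : ℝ) = z at hzR h2 h3 h4
  have lx : 0 < Real.log x := Real.log_pos (by linarith)
  have lz : 0 < Real.log z := Real.log_pos (by linarith)
  have l3 : Real.log x ≤ 2 * Real.log z := by
    have a1 : Real.log x ≤ Real.log (z ^ 2) := by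
      refine Real.log_le_log (by linarith) ?_
      nlinarith
    rwa [Real.log_pow, Nat.cast_ofNat] at a1
  have l4 : Real.log z ≤ Real.log x := Real.log_le_log (by linarith) h4
  have k1 : Real.log (Real.log z) ≤ Real.log (Real.log x) := Real.log_le_log lz l4
  have k2 : Real.log (Real.log x) ≤ 1 + Real.log (Real.log z) := by
    have a1 : Real.log (Real.log x) ≤ Real.log (2 * Real.log z) := Real.log_le_log lx l3
    rw [Real.log_mul (by norm_num) lz.ne'] at a1
    have a2 := Real.log_two_lt_d9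
    linarith
  rw [abs_le] at h1 h2 ⊢
  constructor <;> linarith [h1.1, h1.2, h2.1, h2.2]

end Pool.Agent.Helper75.LZ
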